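import Mathlib

set_option autoImplicit false

namespace Pool.Agent.Helper146.ES

open Finset

/-- coherent ordered triples -/
def Co {V : Type} (s : V → V → Bool) (a b c : V) : Prop :=
  s a b ≠ s a c ∧ s b a ≠ s b c ∧ s c a ≠ s c b

instance {V : Type} (s : V → V → Bool) (a b c : V) : Decidable (Co s a b c) := by
  unfold Co; infer_instance

/-- number of coherent ordered triples -/
def O {V : Type} [Fintype V] [DecidableEq V] (s : V → V → Bool) : ℕ :=
  (univ.filter (fun t : V × V × V => Co s t.1 t.2.1 t.2.2)).card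

theorem O_equiv {V W : Type} [Fintype V] [DecidableEq V] [Fintype W] [DecidableEq W]
    (e : V ≃ W) (s : W → W → Bool) : O (fun a b => s (e a) (e b)) = O s := by
  unfold O
  apply Finset.card_bij (fun t _ => (e t.1, e t.2.1, e t.2.2))
  · intro t ht
    simp only [mem_filter, mem_univ, true_and] at ht ⊢
    exact ht
  · rintro ⟨a, b, c⟩ _ ⟨a', b', c'⟩ _ h
    simpa using h
  · rintro ⟨a, b, c⟩ ht
    refine ⟨(e.symm a, e.symm b, e.symm c), ?_, by simp⟩
    simp only [mem_filter, mem_univ, true_and] at ht ⊢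
    simpa [Co] using ht

/-- blow-up -/
def bl {V W : Type} [DecidableEq V] (s : V → V → Bool) (u : W → W → Bool) :
    V × W → V × W → Bool :=
  fun x y => if x.1 = y.1 then u x.2 y.2 else s x.1 y.1

theorem Co_ne {V : Type} {s : V → V → Bool} {a b c : V} (h : Co s a b c) :
    a ≠ b ∧ b ≠ c ∧ a ≠ c := by
  obtain ⟨h1, h2, h3⟩ := h
  refine ⟨?_, ?_, ?_⟩
  · rintro rfl; exact h3 rfl
  · rintro rfl; exact h1 rfl
  · rintro rfl; exact h2 rfl

theorem O_bl {V W : Type} [Fintype V] [DecidableEq V] [Fintype W] [DecidableEq W]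
    (s : V → V → Bool) (u : W → W → Bool) :
    O s * Fintype.card W ^ 3 + Fintype.card V * O u ≤ O (bl s u) := by
  classical
  set A : Finset (V × V × V) := univ.filter (fun t : V × V × V => Co s t.1 t.2.1 t.2.2) with hA
  set B : Finset (W × W × W) := univ.filter (fun t : W × W × W => Co u t.1 t.2.1 t.2.2) with hB
  let f : (V × V × V) × (W × W × W) → (V × W) × (V × W) × (V × W) :=
    fun p => ((p.1.1, p.2.1), (p.1.2.1, p.2.2.1), (p.1.2.2, p.2.2.2))
  let g : V × (W × W × W) → (V × W) × (V × W) × (V × W) :=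
    fun p => ((p.1, p.2.1), (p.1, p.2.2.1), (p.1, p.2.2.2))
  have hf : Function.Injective f := by
    rintro ⟨⟨a, b, c⟩, ⟨x, y, z⟩⟩ ⟨⟨a', b', c'⟩, ⟨x', y', z'⟩⟩ h
    simp only [f, Prod.mk.injEq] at h
    obtain ⟨⟨h1, h2⟩, ⟨h3, h4⟩, ⟨h5, h6⟩⟩ := h
    subst h1 h2 h3 h4 h5 h6
    rfl
  have hg : Function.Injective g := by
    rintro ⟨a, ⟨x, y, z⟩⟩ ⟨a', ⟨x', y', z'⟩⟩ h
    simp only [g, Prod.mk.injEq] at h
    obtain ⟨⟨h1, h2⟩, ⟨h3, h4⟩, ⟨h5, h6⟩⟩ := h
    subst h1 h2 h4 h6
    rfl
  have hdis : Disjoint ((A ×ˢ (univ : Finset (W × W × W))).image f)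
      (((univ : Finset V) ×ˢ B).image g) := by
    rw [Finset.disjoint_left]
    rintro q hq hq'
    rw [mem_image] at hq hq'
    obtain ⟨⟨⟨a, b, c⟩, ⟨x, y, z⟩⟩, hp, rfl⟩ := hq
    obtain ⟨⟨a', ⟨x', y', z'⟩⟩, hp', h⟩ := hq'
    simp only [f, g, Prod.mk.injEq] at h
    obtain ⟨⟨h1, h2⟩, ⟨h3, h4⟩, ⟨h5, h6⟩⟩ := h
    rw [mem_product] at hp
    have := hp.1
    simp only [hA, mem_filter, mem_univ, true_and] at this
    exact (Co_ne this).1 (h1.symm.trans h3)
  have hsub : ((A ×ˢ (univ : Finset (W × W × W))).image f) ∪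
      (((univ : Finset V) ×ˢ B).image g) ⊆
      univ.filter (fun t : (V × W) × (V × W) × (V × W) => Co (bl s u) t.1 t.2.1 t.2.2) := by
    intro q hq
    rw [mem_filter]
    refine ⟨mem_univ _, ?_⟩
    rw [mem_union] at hq
    rcases hq with hq | hq
    · rw [mem_image] at hq
      obtain ⟨⟨⟨a, b, c⟩, ⟨x, y, z⟩⟩, hp, rfl⟩ := hq
      rw [mem_product] at hp
      have := hp.1
      simp only [hA, mem_filter, mem_univ, true_and] at this
      obtain ⟨n1, n2, n3⟩ := Co_ne this
      obtain ⟨c1, c2, c3⟩ := this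
      simp only [f, Co, bl]
      rw [if_neg n1, if_neg n3, if_neg n1.symm, if_neg n2, if_neg n3.symm, if_neg n2.symm]
      exact ⟨c1, c2, c3⟩
    · rw [mem_image] at hq
      obtain ⟨⟨a, ⟨x, y, z⟩⟩, hp, rfl⟩ := hq
      rw [mem_product] at hp
      have := hp.2
      simp only [hB, mem_filter, mem_univ, true_and] at this
      simp only [g, Co, bl, if_true]
      exact this
  calc O s * Fintype.card W ^ 3 + Fintype.card V * O u
      = ((A ×ˢ (univ : Finset (W × W × W))).image f).card +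
        (((univ : Finset V) ×ˢ B).image g).card := by
        rw [card_image_of_injective _ hf, card_image_of_injective _ hg, card_product,
          card_product, card_univ, card_univ, Fintype.card_prod, Fintype.card_prod]
        simp only [O]
        ring
    _ = (((A ×ˢ (univ : Finset (W × W × W))).image f) ∪
        (((univ : Finset V) ×ˢ B).image g)).card := (card_union_of_disjoint hdis).symm
    _ ≤ _ := card_le_card hsub

/-- iterate: on `Fin (N^t)` -/
theorem iter {N : ℕ} (hN : 2 ≤ N) (s : Fin N → Fin N → Bool) (t : ℕ) :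
    ∃ u : Fin (N ^ t) → Fin (N ^ t) → Bool,
      (O s : ℤ) * (((N : ℤ) ^ t) ^ 3 - (N : ℤ) ^ t) ≤ (O u : ℤ) * ((N : ℤ) ^ 3 - N) := by
  induction t with
  | zero => exact ⟨fun _ _ => true, by
      have : (0 : ℤ) ≤ (N : ℤ) ^ 3 - N := by
        have h1 : (1 : ℤ) ≤ N := by exact_mod_cast (by omega : 1 ≤ N)
        have : (N : ℤ) ≤ (N : ℤ) ^ 3 := by
          calc (N : ℤ) = (N : ℤ) ^ 1 := (pow_one _).symm
            _ ≤ (N : ℤ) ^ 3 := pow_le_pow_right₀ h1 (by norm_num)
        linarith
      have h2 : (0 : ℤ) ≤ (O (fun _ _ : Fin (N ^ 0) => true) : ℤ) := by positivity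
      simpa using mul_nonneg h2 this⟩
  | succ t ih =>
    obtain ⟨u, hu⟩ := ih
    have e : Fin (N ^ (t + 1)) ≃ Fin N × Fin (N ^ t) :=
      (finCongr (by ring)).trans (finProdFinEquiv (m := N) (n := N ^ t)).symm
    refine ⟨fun a b => bl s u (e a) (e b), ?_⟩
    rw [O_equiv e (bl s u)]
    have hb := O_bl s u
    rw [Fintype.card_fin, Fintype.card_fin] at hb
    have hb' : (O s : ℤ) * ((N : ℤ) ^ t) ^ 3 + (N : ℤ) * O u ≤ (O (bl s u) : ℤ) := by
      exact_mod_cast hb
    have hpos : (0 : ℤ) ≤ (N : ℤ) ^ 3 - N := by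
      have h1 : (1 : ℤ) ≤ N := by exact_mod_cast (by omega : 1 ≤ N)
      have : (N : ℤ) ≤ (N : ℤ) ^ 3 := by
        calc (N : ℤ) = (N : ℤ) ^ 1 := (pow_one _).symm
          _ ≤ (N : ℤ) ^ 3 := pow_le_pow_right₀ h1 (by norm_num)
      linarith
    have hNn : (0 : ℤ) ≤ N := by positivity
    have h3 := mul_le_mul_of_nonneg_right hb' hpos
    have h4 := mul_le_mul_of_nonneg_left hu hNn
    have e1 : (N : ℤ) ^ (t + 1) = N * (N : ℤ) ^ t := by ring
    rw [e1]
    generalize (N : ℤ) ^ t = x at *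
    nlinarith [h3, h4]

/-- the 3-graph of a structure -/
def Hg {V : Type} [Fintype V] [DecidableEq V] (s : V → V → Bool) : Finset (Finset V) :=
  univ.filter (fun e : Finset V => e.card = 3 ∧
    ∀ p ∈ e, ∀ q ∈ e, ∀ r ∈ e, p ≠ q → q ≠ r → p ≠ r → s p q ≠ s p r)

theorem Hg_card3 {V : Type} [Fintype V] [DecidableEq V] (s : V → V → Bool) :
    ∀ e ∈ Hg s, e.card = 3 := by
  intro e he
  exact (mem_filter.1 he).2.1

theorem Hg_link {V : Type} [Fintype V] [DecidableEq V] (s : V → V → Bool) {v x y : V}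
    (h : ({v, x, y} : Finset V) ∈ Hg s) : s v x ≠ s v y := by
  obtain ⟨-, h3, h⟩ := mem_filter.1 h
  have n1 : v ≠ x := by
    rintro rfl
    have : ({v, v, y} : Finset V).card ≤ 2 := by
      rw [Finset.insert_eq_of_mem (by simp)]; exact Finset.card_le_two
    omega
  have n2 : v ≠ y := by
    rintro rfl
    have : ({v, x, v} : Finset V).card ≤ 2 := by
      rw [Finset.insert_eq_of_mem (by simp)]; exact Finset.card_le_two
    omega
  have n3 : x ≠ y := by
    rintro rfl
    have : ({v, x, x} : Finset V).card ≤ 2 := by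
      rw [Finset.insert_eq_of_mem (show x ∈ ({x} : Finset V) by simp)]; exact Finset.card_le_two
    omega
  exact h v (by simp) x (by simp) y (by simp) n1 n3 n2

theorem O_le {V : Type} [Fintype V] [DecidableEq V] (s : V → V → Bool) :
    O s ≤ 6 * (Hg s).card := by
  classical
  unfold O
  apply Finset.card_le_mul_card_image_of_maps_to (f := fun t : V × V × V => ({t.1, t.2.1, t.2.2} : Finset V))
  · rintro ⟨a, b, c⟩ ht
    simp only [mem_filter, mem_univ, true_and] at ht
    obtain ⟨n1, n2, n3⟩ := Co_ne ht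
    obtain ⟨c1, c2, c3⟩ := ht
    simp only [Hg, mem_filter, mem_univ, true_and]
    refine ⟨Finset.card_eq_three.2 ⟨a, b, c, n1, n3, n2, rfl⟩, ?_⟩
    intro p hp q hq r hr h1 h2 h3
    simp only [mem_insert, mem_singleton] at hp hq hr
    rcases hp with hp | hp | hp <;> rcases hq with hq | hq | hq <;>
      rcases hr with hr | hr | hr <;> subst hp <;> subst hq <;> subst hr <;>
      first
        | exact (h1 rfl).elim
        | exact (h2 rfl).elim
        | exact (h3 rfl).elim
        | exact c1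
        | exact c1.symm
        | exact c2
        | exact c2.symm
        | exact c3
        | exact c3.symm
  · intro e he
    obtain ⟨x, y, z, n1, n2, n3, rfl⟩ := Finset.card_eq_three.1 (Hg_card3 s e he)
    calc _ ≤ ({(x, y, z), (x, z, y), (y, x, z), (y, z, x), (z, x, y), (z, y, x)} :
          Finset (V × V × V)).card := by
          apply card_le_card
          rintro ⟨a, b, c⟩ ht
          simp only [mem_filter, mem_univ, true_and] at ht
          obtain ⟨hc, he⟩ := ht
          obtain ⟨m1, m2, m3⟩ := Co_ne hc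
          have ha : a ∈ ({x, y, z} : Finset V) := he ▸ (by simp)
          have hb : b ∈ ({x, y, z} : Finset V) := he ▸ (by simp)
          have hc' : c ∈ ({x, y, z} : Finset V) := he ▸ (by simp)
          simp only [mem_insert, mem_singleton] at ha hb hc' ⊢
          rcases ha with rfl | rfl | rfl <;> rcases hb with rfl | rfl | rfl <;>
            rcases hc' with rfl | rfl | rfl <;> simp_all
      _ ≤ 6 := Finset.card_le_six

end Pool.Agent.Helper146.ES
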