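import Pool.Agent.Helper146.ES.Blow

set_option autoImplicit false

namespace Pool.Agent.Helper146.ES

open Finset

theorem real_iter {N : ℕ} (hN : 2 ≤ N) (s : Fin N → Fin N → Bool)
    (h : (N : ℤ) ^ 3 - N < 4 * (O s : ℤ)) :
    ∃ c : ℝ, 1 / 4 < c ∧ ∀ t : ℕ, ∃ u : Fin (N ^ t) → Fin (N ^ t) → Bool,
      c * (((N ^ t : ℕ) : ℝ) ^ 3 - ((N ^ t : ℕ) : ℝ)) ≤ 6 * ((Hg u).card : ℝ) := by
  have hpos : (0 : ℝ) < (N : ℝ) ^ 3 - N := by
    have h1 : (2 : ℝ) ≤ N := by exact_mod_cast hN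
    nlinarith [mul_pos (show (0 : ℝ) < N by linarith) (show (0 : ℝ) < (N : ℝ) - 1 by linarith),
      mul_pos (mul_pos (show (0 : ℝ) < N by linarith) (show (0 : ℝ) < (N : ℝ) - 1 by linarith))
      (show (0 : ℝ) < (N : ℝ) + 1 by linarith)]
  refine ⟨(O s : ℝ) / ((N : ℝ) ^ 3 - N), ?_, ?_⟩
  · rw [lt_div_iff₀ hpos]
    have : ((N : ℝ) ^ 3 - N) < 4 * (O s : ℝ) := by exact_mod_cast h
    linarith
  · intro t
    obtain ⟨u, hu⟩ := iter hN s t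
    refine ⟨u, ?_⟩
    have h1 : (O s : ℝ) * (((N : ℝ) ^ t) ^ 3 - (N : ℝ) ^ t) ≤ (O u : ℝ) * ((N : ℝ) ^ 3 - N) := by
      exact_mod_cast hu
    have h2 : (O u : ℝ) ≤ 6 * ((Hg u).card : ℝ) := by exact_mod_cast O_le u
    push_cast
    refine le_trans ?_ h2
    rw [div_mul_eq_mul_div, div_le_iff₀ hpos]
    exact h1

theorem two_col {V : Type} (r : V → V → Prop) (f : V → Bool)
    (h : ∀ x y, r x y → f x ≠ f y) : (SimpleGraph.fromRel r).Colorable 2 := by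
  refine ⟨SimpleGraph.Coloring.mk (fun x => if f x = true then (0 : Fin 2) else 1) ?_⟩
  intro x y hxy
  rw [SimpleGraph.fromRel_adj] at hxy
  have hne : f x ≠ f y := by
    rcases hxy.2 with h' | h'
    · exact h x y h'
    · exact (h y x h').symm
  cases hx : f x <;> cases hy : f y <;> simp_all

theorem no_d846 {N : ℕ} (hN : 2 ≤ N) (s : Fin N → Fin N → Bool)
    (h : (N : ℤ) ^ 3 - N < 4 * (O s : ℤ)) :
    ¬ (∀ ε : ℝ, 0 < ε → ∃ N : ℕ, ∀ n : ℕ, N ≤ n →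
      ∀ H : Finset (Finset (Fin n)),
        (∀ e ∈ H, e.card = 3) →
        (∀ v : Fin n,
          (SimpleGraph.fromRel
            (fun x y : Fin n => ({v, x, y} : Finset (Fin n)) ∈ H)).Colorable 2) →
        (H.card : ℝ) ≤ (1 / 4 + ε) * ((n.choose 3 : ℕ) : ℝ)) := by
  intro H
  obtain ⟨c, hc, hit⟩ := real_iter hN s h
  obtain ⟨M, hM⟩ := H ((c - 1 / 4) / 2) (by linarith)
  obtain ⟨u, hu⟩ := hit (M + 3)
  have hlt : M + 3 < N ^ (M + 3) := Nat.lt_pow_self (by omega)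
  have h1 := hM (N ^ (M + 3)) (by omega) (Hg u) (Hg_card3 u) (fun v => by
    apply two_col _ (fun x => u v x)
    intro x y hxy
    exact Hg_link u hxy)
  obtain ⟨m, hm⟩ : ∃ m, N ^ (M + 3) = m + 3 := ⟨N ^ (M + 3) - 3, by omega⟩
  have hch : 6 * (N ^ (M + 3)).choose 3 + N ^ (M + 3) ≤ (N ^ (M + 3)) ^ 3 := by
    have h2 := Nat.descFactorial_eq_factorial_mul_choose (N ^ (M + 3)) 3
    rw [hm] at h2 ⊢
    have h3 : (m + 3).descFactorial 3 = (m + 1) * ((m + 2) * (m + 3)) := by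
      simp [Nat.descFactorial]
    rw [h3, show Nat.factorial 3 = 6 from rfl] at h2
    rw [← h2]
    nlinarith [Nat.zero_le m, Nat.zero_le (m ^ 2)]
  have hcp : 0 < (N ^ (M + 3)).choose 3 := Nat.choose_pos (by omega)
  have h4 : 6 * (((N ^ (M + 3)).choose 3 : ℕ) : ℝ) ≤
      ((N ^ (M + 3) : ℕ) : ℝ) ^ 3 - ((N ^ (M + 3) : ℕ) : ℝ) := by
    have : (6 * (((N ^ (M + 3)).choose 3 : ℕ) : ℝ)) + ((N ^ (M + 3) : ℕ) : ℝ) ≤
      ((N ^ (M + 3) : ℕ) : ℝ) ^ 3 := by exact_mod_cast hch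
    linarith
  have h5 : (0 : ℝ) < (((N ^ (M + 3)).choose 3 : ℕ) : ℝ) := by exact_mod_cast hcp
  have h6 := mul_le_mul_of_nonneg_left h4 (show (0 : ℝ) ≤ c by linarith)
  nlinarith [h6, h1, h5, hu, mul_pos h5 (show (0 : ℝ) < c - 1 / 4 by linarith)]

theorem no_c92b {N : ℕ} (hN : 2 ≤ N) (s : Fin N → Fin N → Bool)
    (h : (N : ℤ) ^ 3 - N < 4 * (O s : ℤ)) :
    ¬ (∀ (n : ℕ), 1 ≤ n → ∀ (H : Finset (Finset (Fin n))),
      (∀ e ∈ H, e.card = 3) →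
      (∀ x : Fin n,
        (SimpleGraph.fromRel
          (fun a b : Fin n => a ≠ x ∧ b ≠ x ∧ ({x, a, b} : Finset (Fin n)) ∈ H)).Colorable 2) →
      (H.card : ℝ) < (n : ℝ) ^ 3 / 24) := by
  intro H
  obtain ⟨c, hc, hit⟩ := real_iter hN s h
  obtain ⟨t, ht⟩ := exists_nat_gt (c / (c - 1 / 4))
  obtain ⟨u, hu⟩ := hit t
  have hlt : t < N ^ t := Nat.lt_pow_self (by omega)
  have h1 := H (N ^ t) (by omega) (Hg u) (Hg_card3 u) (fun v => by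
    apply two_col _ (fun x => u v x)
    intro x y hxy
    exact Hg_link u hxy.2.2)
  have hn : (t : ℝ) < ((N ^ t : ℕ) : ℝ) := by exact_mod_cast hlt
  have hn1 : (1 : ℝ) ≤ ((N ^ t : ℕ) : ℝ) := by
    have : 1 ≤ N ^ t := by omega
    exact_mod_cast this
  generalize ((N ^ t : ℕ) : ℝ) = x at *
  have hd : (0 : ℝ) < c - 1 / 4 := by linarith
  have h2 : c / (c - 1 / 4) < x := lt_trans ht hn
  rw [div_lt_iff₀ hd] at h2
  -- c < x (c - 1/4); so (c-1/4) x^3 ≥ c x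
  have hx0 : (0 : ℝ) < x := by linarith
  have h3 : c * x < x * (c - 1 / 4) * x := mul_lt_mul_of_pos_right h2 hx0
  have h4 : x * (c - 1 / 4) * x * 1 ≤ x * (c - 1 / 4) * x * x := by
    apply mul_le_mul_of_nonneg_left hn1
    positivity
  nlinarith [h3, h4, hu, h1]

end Pool.Agent.Helper146.ES
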